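import Pool.Agent.Helper94.KC.TW.Clus

/-!
# Kempe equivalence of 5-colourings (MP_bf413e_co): clusters of hubs in discs

Hubs are vertices of degree at least 7; there is no condition on the vertices of degree at most 5.
-/

set_option autoImplicit false

namespace Pool.Agent.Results.MP_bf413e_co.HubClusters

open Pool.Agent.Helper94.KC

/-- the graph of hubs (vertices of degree at least 7): two hubs are joined if they have a common
neighbour -/
def HubGraph {V : Type} [Fintype V] (T : Finset (Finset V)) : SimpleGraph V where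
  Adj a b := a ≠ b ∧ 7 ≤ dg T a ∧ 7 ≤ dg T b ∧ ∃ u, (sk T).Adj a u ∧ (sk T).Adj b u
  symm := ⟨fun _ _ h => ⟨h.1.symm, h.2.2.1, h.2.1, h.2.2.2.imp fun _ hu => ⟨hu.2, hu.1⟩⟩⟩
  loopless := ⟨fun _ h => h.1 rfl⟩

/-- Let `T` be a triangulation of a closed connected surface with edge-width at least 42600, `w` a
cycle which does not bound (mod 2) and is not longer than any even edge set which does not bound,
and `x` a vertex of `w` at distance more than 1330 from all hubs.  Suppose that for every hub `h`,
either there is a disc at distance more than 644 from `x` such that all vertices at distance at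
most 2 from the chain of `h` (the hubs joined to `h` by a path of the hub graph) are interior
vertices of the disc, or there is `ρ` such that the chain of `h` is in the ball of radius `ρ` about
`h`, the edge-width is at least `2 ρ + 6` and the distance of `x` and `h` is more than
`2 ρ + 648`.  Then any two proper 5-colourings of any subgraph `G` of the graph of `T` are Kempe
equivalent. -/
theorem result (V : Type) [Fintype V] (T : Finset (Finset V)) (hT : Surf T) (hE : EW T 42600)
    (x₀ : V) (w : (sk T).Walk x₀ x₀) (hw : w.IsCycle) (hb : ¬ Bounds T (wed w))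
    (hmin : ∀ z ⊆ ed T, Even2 z → ¬ Bounds T z → w.length ≤ z.card)
    (x : V) (hx : x ∈ w.support) (hh : ∀ h, 7 ≤ dg T h → 1330 < (sk T).dist x h)
    (hcl : ∀ h, 7 ≤ dg T h →
      (∃ Δ z : Finset (Finset V), z.Nonempty ∧ Disc T Δ z ∧
        (∀ h', (HubGraph T).Reachable h h' → ∀ v, (sk T).dist h' v ≤ 2 →
          ∀ t ∈ T, v ∈ t → t ∈ Δ) ∧
        ∀ t ∈ Δ, ∀ v ∈ t, 644 < (sk T).dist x v) ∨
      ∃ ρ, (∀ h', (HubGraph T).Reachable h h' → (sk T).dist h h' ≤ ρ) ∧ EW T (2 * ρ + 6) ∧
        2 * ρ + 648 < (sk T).dist x h) :
    ∀ G ≤ sk T, AllEq G :=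
  TW.clus_main hT hE ⟨hw, hb, hmin⟩ hx hh hcl

end Pool.Agent.Results.MP_bf413e_co.HubClusters
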