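import Pool.Agent.Helper94.KC.TW.Region

/-!
# Kempe equivalence of 5-colourings (MP_bf413e_co): hub-free regions which cut to a planar graph

Hubs are vertices of degree at least 7; there is no condition on the vertices of degree at most 5.
-/

set_option autoImplicit false

namespace Pool.Agent.Results.MP_bf413e_co.HubFreeRegion

open Pool.Agent.Helper94.KC
open Pool.Agent.Helper30.ML (Mac rs)

/-- Let `T` be a triangulation of a closed connected surface with edge-width at least 42600, `w` a
cycle which does not bound (mod 2) and is not longer than any even edge set which does not bound,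
and `x` a vertex of `w` at distance more than 1330 from all hubs.  Let `Y` be a set of vertices,
all joined to `x` by paths in `Y`, without hubs among its members and their neighbours, such that
every set `R` of vertices which are neither in `Y` nor adjacent to `Y`, in which every vertex has
at least 5 neighbours, spans a planar graph (for instance, that `T` without `Y` and its neighbours
is planar).  Then any two proper 5-colourings of any subgraph `G` of the graph of `T` are Kempe
equivalent. -/
theorem result (V : Type) [Fintype V] (T : Finset (Finset V)) (hT : Surf T) (hE : EW T 42600)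
    (x₀ : V) (w : (sk T).Walk x₀ x₀) (hw : w.IsCycle) (hb : ¬ Bounds T (wed w))
    (hmin : ∀ z ⊆ ed T, Even2 z → ¬ Bounds T z → w.length ≤ z.card)
    (x : V) (hx : x ∈ w.support) (hh : ∀ h, 7 ≤ dg T h → 1330 < (sk T).dist x h) (Y : Finset V)
    (hc : ∀ y ∈ Y, (rs (sk T) (Y : Set V)).Reachable x y)
    (hY : ∀ y ∈ Y, ∀ h, (sk T).Adj y h → dg T h ≤ 6)
    (hR : ∀ R : Finset V, (∀ y ∈ Y, y ∉ R ∧ ∀ v, (sk T).Adj y v → v ∉ R) →
      (∀ v ∈ R, 5 ≤ dR (sk T) R v) → Mac (rs (sk T) (R : Set V))) :
    ∀ G ≤ sk T, AllEq G :=
  TW.region_main hT hE ⟨hw, hb, hmin⟩ hx hh Y hc hY hR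

end Pool.Agent.Results.MP_bf413e_co.HubFreeRegion
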