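import Pool.Agent.Helper94.KC.TW.Fin

/-!
# Kempe equivalence of 5-colourings (MP_bf413e_co): hubs in balls

Hubs are vertices of degree at least 7; there is no condition on the vertices of degree at most 5.
-/

set_option autoImplicit false

namespace Pool.Agent.Results.MP_bf413e_co.HubsInBalls

open Pool.Agent.Helper94.KC

/-- Let `T` be a triangulation of a closed connected surface (of any genus) with edge-width at least
`43000 (m+1) (r+1)` in which all vertices of degree at least 7 are at distance at most `r` from a
set of at most `m` vertices.  Then any two proper 5-colourings of any subgraph `G` of the graph of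
`T` are Kempe equivalent. -/
theorem result (V : Type) [Fintype V] (T : Finset (Finset V)) (m r : ℕ) (hT : Surf T)
    (Z : Finset V) (hZc : Z.card ≤ m) (hZ : ∀ v, 7 ≤ dg T v → ∃ z ∈ Z, (sk T).dist z v ≤ r)
    (hE : EW T (43000 * (m + 1) * (r + 1))) : ∀ G ≤ sk T, AllEq G :=
  TW.main_lin m r hT Z hZc hZ hE

end Pool.Agent.Results.MP_bf413e_co.HubsInBalls
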