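import Pool.Agent.Helper94.KC.RED

/-!
# Kempe equivalence of 5-colourings (MP_bf413e_co): flat patches are reducible

In a minimal counterexample (to the question for any class of graphs closed under subgraphs, such
as the graphs embedded in a surface with edge-width at least `c`) any two flat balls of radius 6
intersect.
-/

set_option autoImplicit false

namespace Pool.Agent.Results.MP_bf413e_co.MinimalCounterexamples

open Pool.Agent.Helper94.KC
open Pool.Agent.Helper30.ML (Mac)

/-- Let `C` be a class of graphs on a finite vertex set, closed under taking subgraphs.  If all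
5-colourings are Kempe equivalent for all members of `C` which are not planar, have no vertices of
degree 1, 2, 3 or 4, and have no two disjoint flat patches (with possibly missing edges, but with at
least one edge at each of the two cores), then all 5-colourings are Kempe equivalent for all members
of `C`. -/
theorem result (V : Type) [Fintype V] (C : SimpleGraph V → Prop)
    (hC : ∀ G H, H ≤ G → C G → C H)
    (h : ∀ G, C G → (∀ x, dR G Finset.univ x = 0 ∨ 5 ≤ dR G Finset.univ x) → ¬ Mac G →
      (∀ i₁ i₂ : ℤ × ℤ → V, SPatch G i₁ → SPatch G i₂ →
        (∀ p q, hn p ≤ 6 → hn q ≤ 6 → i₁ p ≠ i₂ q) →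
        (∀ x ∈ core i₁, ∀ y, ¬ G.Adj x y) ∨ (∀ x ∈ core i₂, ∀ y, ¬ G.Adj x y)) → AllEq G) :
    ∀ G, C G → AllEq G :=
  minred C hC h

end Pool.Agent.Results.MP_bf413e_co.MinimalCounterexamples
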